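import Pool.Agent.helper60.XP.SpecT

set_option autoImplicit false

open Complex Metric Set Filter Topology MeasureTheory
open V3S (UF)
open XP

noncomputable section

namespace XPT

/-- an analytic function which vanishes at `0` is `x * q x` -/
lemma RTX_fac {y : ℂ → ℂ} (hy : AnalyticAt ℂ y 0) (h0 : y 0 = 0) :
    ∃ q : ℂ → ℂ, AnalyticAt ℂ q 0 ∧ ∀ᶠ x in 𝓝 (0 : ℂ), y x = x * q x := by
  have h1 : ((1 : ℕ) : ℕ∞) ≤ analyticOrderAt y 0 := by
    have := (hy.analyticOrderAt_ne_zero).2 h0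
    simpa using ENat.one_le_iff_ne_zero.2 this
  obtain ⟨g, hg, h⟩ := (natCast_le_analyticOrderAt hy).1 h1
  refine ⟨g, hg, h.mono fun x hx => ?_⟩
  rw [hx, sub_zero, pow_one, smul_eq_mul]

/-- an analytic function whose derivative vanishes near `0` is constant near `0` -/
lemma RTX_const {q : ℂ → ℂ} (hq : AnalyticAt ℂ q 0) (h : ∀ᶠ x in 𝓝 (0 : ℂ), deriv q x = 0) :
    ∀ᶠ x in 𝓝 (0 : ℂ), q x = q 0 := by
  have h1 := h.and (hq.eventually_analyticAt)
  rw [Metric.eventually_nhds_iff_ball] at h1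
  obtain ⟨r, hr, h2⟩ := h1
  filter_upwards [Metric.ball_mem_nhds (0 : ℂ) hr] with x hx
  exact Metric.isOpen_ball.is_const_of_deriv_eq_zero (convex_ball _ _).isPreconnected
    (fun z hz => (h2 z hz).2.differentiableAt.differentiableWithinAt)
    (fun z hz => (h2 z hz).1) hx (Metric.mem_ball_self hr)

/-- the second order equation forces the derivative to vanish -/
lemma RTX_ode {q : ℂ → ℂ} {d : ℤ} (hd : -2 ≤ d) (hq : AnalyticAt ℂ q 0) (hq0 : q 0 ≠ 0)
    (h : ∀ᶠ x in 𝓝 (0 : ℂ), 2 * (2 * deriv q x + x * deriv (deriv q) x) * q x +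
      (q x + x * deriv q x) * (d : ℂ) * deriv q x = 0) :
    ∀ᶠ x in 𝓝 (0 : ℂ), deriv q x = 0 := by
  by_contra hne
  have hp : AnalyticAt ℂ (deriv q) 0 := hq.deriv
  obtain ⟨k, g, hg, hg0, he⟩ := hp.exists_eventuallyEq_pow_smul_nonzero_iff.2 hne
  simp only [sub_zero, smul_eq_mul] at he
  have hd1 : ∀ᶠ x in 𝓝 (0 : ℂ), deriv (deriv q) x = deriv (fun x => x ^ k * g x) x :=
    Filter.EventuallyEq.deriv he
  have hga := hg.eventually_analyticAt
  have key : ∀ᶠ x in 𝓝[≠] (0 : ℂ), 2 * (2 * g x + k * g x + x * deriv g x) * q x +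
      (q x + x * deriv q x) * (d : ℂ) * g x = 0 := by
    filter_upwards [self_mem_nhdsWithin, nhdsWithin_le_nhds he, nhdsWithin_le_nhds hd1,
      nhdsWithin_le_nhds hga, nhdsWithin_le_nhds h] with x hx hex hdx hgx hh
    have hx0 : x ≠ 0 := hx
    have hD : deriv (fun x => x ^ k * g x) x = (k : ℂ) * x ^ (k - 1) * g x + x ^ k * deriv g x :=
      ((hasDerivAt_pow k x).mul hgx.differentiableAt.hasDerivAt).deriv
    have hxk : x * ((k : ℂ) * x ^ (k - 1)) = k * x ^ k := by
      rcases Nat.eq_zero_or_pos k with hk | hk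
      · subst hk; simp
      · obtain ⟨m, rfl⟩ : ∃ m, k = m + 1 := ⟨k - 1, by omega⟩
        simp only [Nat.add_sub_cancel, pow_succ]; ring
    have hxp : x * deriv (deriv q) x = x ^ k * (k * g x + x * deriv g x) := by
      rw [hdx, hD, mul_add, ← mul_assoc, hxk]; ring
    rw [hxp] at hh
    have hpk : x ^ k ≠ 0 := pow_ne_zero k hx0
    apply mul_left_cancel₀ hpk
    rw [mul_zero, ← hh]
    have e1 : deriv q x = x ^ k * g x := hex
    have e2 : (q x + x * deriv q x) * (d : ℂ) * deriv q x =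
        (q x + x * deriv q x) * (d : ℂ) * (x ^ k * g x) := by rw [e1]
    rw [e2, e1]
    ring
  have hcont : ContinuousAt (fun x : ℂ => 2 * (2 * g x + k * g x + x * deriv g x) * q x +
      (q x + x * deriv q x) * (d : ℂ) * g x) 0 := by
    have c1 := hg.continuousAt
    have c2 := hg.deriv.continuousAt
    have c3 := hq.continuousAt
    have c4 := hp.continuousAt
    exact ((((continuousAt_const.mul c1).add (continuousAt_const.mul c1)).add
      (continuousAt_id.mul c2)).const_mul 2 |>.mul c3).add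
      (((c3.add (continuousAt_id.mul c4)).mul continuousAt_const).mul c1)
  have hlim := tendsto_nhds_unique_of_eventuallyEq
    (hcont.tendsto.mono_left nhdsWithin_le_nhds : Tendsto _ (𝓝[≠] (0 : ℂ)) _)
    (tendsto_const_nhds (x := (0 : ℂ))) key
  simp only [zero_mul, add_zero] at hlim
  have h3 : ((4 + 2 * k + d : ℤ) : ℂ) * (g 0 * q 0) = 0 := by
    push_cast
    linear_combination hlim
  have h4 : ((4 + 2 * k + d : ℤ) : ℂ) ≠ 0 := by
    have : (4 + 2 * (k : ℤ) + d) ≠ 0 := by omega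
    exact_mod_cast this
  exact (mul_ne_zero h4 (mul_ne_zero hg0 hq0)) h3

theorem RTX : RTX_stmt := by
  intro y d ζ K hd hζ hy hy0 hyd h
  obtain ⟨q, hq, hyq⟩ := RTX_fac hy hy0
  have hqa := hq.eventually_analyticAt
  -- the derivative of y
  have hdy : ∀ᶠ x in 𝓝 (0 : ℂ), deriv y x = q x + x * deriv q x := by
    have h1 : ∀ᶠ x in 𝓝 (0 : ℂ), deriv y x = deriv (fun x => x * q x) x :=
      Filter.EventuallyEq.deriv hyq
    filter_upwards [h1, hqa] with x hx hqx
    have hd' : HasDerivAt (fun x => x * q x) (1 * q x + x * deriv q x) x :=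
      (hasDerivAt_id' x).mul hqx.differentiableAt.hasDerivAt
    rw [hx, hd'.deriv, one_mul]
  have hq0 : q 0 = ζ := by
    have := hdy.self_of_nhds
    rw [hyd] at this
    rw [this]; ring
  have hq0' : q 0 ≠ 0 := by rw [hq0]; exact hζ
  have hqne : ∀ᶠ x in 𝓝 (0 : ℂ), q x ≠ 0 := hq.continuousAt.eventually_ne hq0'
  have hAne : ∀ᶠ x in 𝓝 (0 : ℂ), q x + x * deriv q x ≠ 0 := by
    have hc : ContinuousAt (fun x : ℂ => q x + x * deriv q x) 0 :=
      hq.continuousAt.add (continuousAt_id.mul hq.deriv.continuousAt)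
    refine hc.eventually_ne ?_
    simpa using hq0'
  -- the equation for q off 0
  have hF : ∀ᶠ x in 𝓝[≠] (0 : ℂ), (q x + x * deriv q x) ^ 2 * q x ^ d = K := by
    filter_upwards [self_mem_nhdsWithin, nhdsWithin_le_nhds hyq, nhdsWithin_le_nhds hdy, h]
      with x hx h1 h2 h3
    have hx0 : x ≠ 0 := hx
    have hxd : x ^ d ≠ 0 := zpow_ne_zero d hx0
    rw [h1, h2, mul_zpow] at h3
    apply mul_right_cancel₀ hxd
    rw [← h3]; ring
  -- and near 0
  have hF' : ∀ᶠ x in 𝓝 (0 : ℂ), (q x + x * deriv q x) ^ 2 * q x ^ d = K := by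
    rw [← nhdsNE_sup_pure, Filter.eventually_sup]
    refine ⟨hF, ?_⟩
    rw [Filter.eventually_pure]
    have hc : ContinuousAt (fun x : ℂ => (q x + x * deriv q x) ^ 2 * q x ^ d) 0 :=
      ((hq.continuousAt.add (continuousAt_id.mul hq.deriv.continuousAt)).pow 2).mul
        (hq.continuousAt.zpow₀ d (Or.inl hq0'))
    exact tendsto_nhds_unique_of_eventuallyEq
      (hc.tendsto.mono_left nhdsWithin_le_nhds : Tendsto _ (𝓝[≠] (0 : ℂ)) _)
      (tendsto_const_nhds (x := K)) hF
  have hdF : ∀ᶠ x in 𝓝 (0 : ℂ), deriv (fun x => (q x + x * deriv q x) ^ 2 * q x ^ d) x = 0 := by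
    have h1 : ∀ᶠ x in 𝓝 (0 : ℂ), deriv (fun x => (q x + x * deriv q x) ^ 2 * q x ^ d) x =
        deriv (fun _ => K) x := Filter.EventuallyEq.deriv hF'
    filter_upwards [h1] with x hx
    rw [hx, deriv_const]
  have hqda := hq.deriv.eventually_analyticAt
  have hode : ∀ᶠ x in 𝓝 (0 : ℂ), 2 * (2 * deriv q x + x * deriv (deriv q) x) * q x +
      (q x + x * deriv q x) * (d : ℂ) * deriv q x = 0 := by
    filter_upwards [hdF, hqne, hAne, hqa, hqda] with x h1 h2 h3 h4 h5
    have dq := h4.differentiableAt.hasDerivAt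
    have dp := h5.differentiableAt.hasDerivAt
    have dA : HasDerivAt (fun x => q x + x * deriv q x)
        (deriv q x + (1 * deriv q x + x * deriv (deriv q) x)) x :=
      dq.add ((hasDerivAt_id x).mul dp)
    have dz : HasDerivAt (fun x => q x ^ d) ((d : ℂ) * q x ^ (d - 1) * deriv q x) x :=
      (hasDerivAt_zpow d (q x) (Or.inl h2)).comp x dq
    have dF := ((dA.pow 2).mul dz).deriv
    have e : deriv (fun x => (q x + x * deriv q x) ^ 2 * q x ^ d) x = _ := dF
    rw [h1] at e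
    have hz : q x ^ d = q x ^ (d - 1) * q x := by
      rw [← zpow_add_one₀ h2, sub_add_cancel]
    have hz1 : q x ^ (d - 1) ≠ 0 := zpow_ne_zero _ h2
    apply mul_left_cancel₀ (mul_ne_zero h3 hz1)
    rw [mul_zero, e]
    simp only [Nat.cast_ofNat, Nat.add_one_sub_one, pow_one, Pi.pow_apply]
    rw [hz]
    ring
  have hp0 := RTX_ode hd hq hq0' hode
  have hc := RTX_const hq hp0
  filter_upwards [hyq, hc] with x h1 h2
  rw [h1, h2, hq0, mul_comm]

end XPT
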